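import Pool.Agent.Helper1.Chordal

namespace Pool.Agent.Results.MP_24e13c_co.ChordalRealDomination

open Pool.Agent.Helper1.Chordal

open Classical in
/-- The closed neighbourhood of `v`. -/
noncomputable def closedNbhd {V : Type} [Fintype V] (G : SimpleGraph V) (v : V) : Finset V :=
  Finset.univ.filter (fun u => u = v ∨ G.Adj v u)

/-- A real dominating function: `f(N[v]) ≥ 1` for every vertex `v`. -/
def IsRealDominating {V : Type} [Fintype V] (G : SimpleGraph V) (f : V → ℝ) : Prop :=
  ∀ v, 1 ≤ ∑ u ∈ closedNbhd G v, f u

/-- A NERD-function: `f ≥ 0` and `f(N[v]) = 1` for every vertex `v`. -/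
def IsNERD {V : Type} [Fintype V] (G : SimpleGraph V) (f : V → ℝ) : Prop :=
  (∀ v, 0 ≤ f v) ∧ ∀ v, ∑ u ∈ closedNbhd G v, f u = 1

/-- The real domination number: the infimum of `w(f) = ∑ v, f v` over all real dominating
functions, an extended real. -/
noncomputable def realDominationNumber {V : Type} [Fintype V] (G : SimpleGraph V) : EReal :=
  ⨅ f ∈ {f : V → ℝ | IsRealDominating G f}, ((∑ v, f v : ℝ) : EReal)

/-- The domination number. -/
noncomputable def dominationNumber {V : Type} (G : SimpleGraph V) : ℕ :=
  sInf {m | ∃ S : Finset V, (∀ v, ∃ u ∈ S, u = v ∨ G.Adj v u) ∧ S.card = m}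

section

variable {V : Type} [Fintype V] (G : SimpleGraph V)

theorem mem_cn {v u : V} : u ∈ closedNbhd G v ↔ u = v ∨ G.Adj v u := by
  simp [closedNbhd]

theorem mem_cn_symm {v u : V} : u ∈ closedNbhd G v ↔ v ∈ closedNbhd G u := by
  rw [mem_cn, mem_cn, SimpleGraph.adj_comm, eq_comm]

theorem swap (f g : V → ℝ) :
    ∑ v, g v * ∑ u ∈ closedNbhd G v, f u = ∑ u, f u * ∑ v ∈ closedNbhd G u, g v := by
  classical
  have e : ∀ (h : V → ℝ) (v : V), ∑ u ∈ closedNbhd G v, h u =
      ∑ u, if u ∈ closedNbhd G v then h u else 0 := by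
    intro h v
    rw [Finset.sum_ite_mem]
    simp
  simp only [e, Finset.mul_sum]
  rw [Finset.sum_comm]
  apply Finset.sum_congr rfl
  intro u _
  apply Finset.sum_congr rfl
  intro v _
  by_cases h : u ∈ closedNbhd G v
  · rw [if_pos h, if_pos ((mem_cn_symm G).1 h)]; ring
  · rw [if_neg h, if_neg (fun h' => h ((mem_cn_symm G).2 h'))]; ring

theorem weight_le {f g : V → ℝ} (hf : IsNERD G f) (hg : IsRealDominating G g) :
    ∑ v, f v ≤ ∑ v, g v := by
  have h1 := swap G f g
  have h2 : ∑ v, g v * ∑ u ∈ closedNbhd G v, f u = ∑ v, g v := by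
    apply Finset.sum_congr rfl
    intro v _
    rw [hf.2 v, mul_one]
  rw [← h2, h1]
  apply Finset.sum_le_sum
  intro u _
  have := mul_le_mul_of_nonneg_left (hg u) (hf.1 u)
  linarith

/-- Farkas lemma for finitely many functionals. -/
theorem farkas {ι E : Type} [DecidableEq ι] [AddCommGroup E] [Module ℝ E] (s : Finset ι) :
    ∀ (a : ι → (E →ₗ[ℝ] ℝ)) (b : E →ₗ[ℝ] ℝ),
    (∀ x, (∀ i ∈ s, a i x ≤ 0) → b x ≤ 0) →
    ∃ y : ι → ℝ, (∀ i ∈ s, 0 ≤ y i) ∧ b = ∑ i ∈ s, y i • a i := by
  induction s using Finset.induction_on with
  | empty =>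
    intro a b h
    refine ⟨fun _ => 0, by simp, ?_⟩
    rw [Finset.sum_empty]
    apply LinearMap.ext
    intro x
    have h1 := h x (by simp)
    have h2 := h (-x) (by simp)
    rw [map_neg] at h2
    simp only [LinearMap.zero_apply]
    linarith
  | insert i0 s hi0 ih =>
    intro a b h
    by_cases h' : ∀ x, (∀ i ∈ s, a i x ≤ 0) → b x ≤ 0
    · obtain ⟨y, hy, hb⟩ := ih a b h'
      refine ⟨fun i => if i = i0 then 0 else y i, ?_, ?_⟩
      · intro i hi
        by_cases hii : i = i0
        · simp [hii]
        · simp only [hii, if_false]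
          exact hy i ((Finset.mem_insert.1 hi).resolve_left hii)
      · rw [Finset.sum_insert hi0, hb]
        simp only [if_true, zero_smul, zero_add]
        apply Finset.sum_congr rfl
        intro i hi
        have : i ≠ i0 := fun h => hi0 (h ▸ hi)
        simp [this]
    · push Not at h'
      obtain ⟨xb, hxb, hbx⟩ := h'
      have hc : 0 < a i0 xb := by
        by_contra hcon
        push Not at hcon
        have := h xb (by
          intro i hi
          rcases Finset.mem_insert.1 hi with rfl | hi
          · exact hcon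
          · exact hxb i hi)
        linarith
      set x1 : E := (a i0 xb)⁻¹ • xb with hx1
      have e1 : a i0 x1 = 1 := by
        rw [hx1, map_smul, smul_eq_mul, inv_mul_cancel₀ hc.ne']
      have e2 : ∀ i ∈ s, a i x1 ≤ 0 := by
        intro i hi
        rw [hx1, map_smul, smul_eq_mul]
        exact mul_nonpos_of_nonneg_of_nonpos (inv_nonneg.2 hc.le) (hxb i hi)
      have e3 : 0 < b x1 := by
        rw [hx1, map_smul, smul_eq_mul]
        exact mul_pos (inv_pos.2 hc) hbx
      obtain ⟨y, hy, hb⟩ := ih (fun i => a i - (a i x1) • a i0) (b - (b x1) • a i0) (by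
        intro x hx
        have hx' := h (x - (a i0 x) • x1) (by
          intro i hi
          rcases Finset.mem_insert.1 hi with rfl | hi
          · rw [map_sub, map_smul, e1]; simp
          · have := hx i hi
            simp only [LinearMap.sub_apply, LinearMap.smul_apply, smul_eq_mul] at this
            rw [map_sub, map_smul, smul_eq_mul]
            linarith)
        rw [map_sub, map_smul, smul_eq_mul] at hx'
        simp only [LinearMap.sub_apply, LinearMap.smul_apply, smul_eq_mul]
        linarith)
      refine ⟨fun i => if i = i0 then b x1 - ∑ i ∈ s, y i * a i x1 else y i, ?_, ?_⟩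
      · intro i hi
        by_cases hii : i = i0
        · simp only [hii, if_true]
          have : ∑ i ∈ s, y i * a i x1 ≤ 0 := by
            apply Finset.sum_nonpos
            intro i hi
            exact mul_nonpos_of_nonneg_of_nonpos (hy i hi) (e2 i hi)
          linarith
        · simp only [hii, if_false]
          exact hy i ((Finset.mem_insert.1 hi).resolve_left hii)
      · rw [Finset.sum_insert hi0]
        simp only [if_true]
        have e4 : ∑ i ∈ s, (if i = i0 then b x1 - ∑ i ∈ s, y i * a i x1 else y i) • a i =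
            ∑ i ∈ s, y i • a i := by
          apply Finset.sum_congr rfl
          intro i hi
          have : i ≠ i0 := fun h => hi0 (h ▸ hi)
          simp [this]
        rw [e4]
        apply LinearMap.ext
        intro x
        have h5 := congrArg (fun φ => φ x) hb
        simp only [LinearMap.sub_apply, LinearMap.smul_apply, smul_eq_mul,
          LinearMap.sum_apply, LinearMap.add_apply] at h5 ⊢
        have h6 : ∑ i ∈ s, y i * (a i x - a i x1 * a i0 x) =
            ∑ i ∈ s, y i * a i x - (∑ i ∈ s, y i * a i x1) * a i0 x := by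
          rw [Finset.sum_mul, ← Finset.sum_sub_distrib]
          apply Finset.sum_congr rfl
          intro i _
          ring
        rw [h6] at h5
        linarith

/-- If the weights of real dominating functions are bounded below, a NERD-function exists. -/
theorem nerd_of_bounded (c : ℝ) (hc : ∀ f, IsRealDominating G f → c ≤ ∑ v, f v) :
    ∃ f, IsNERD G f := by
  classical
  let a : V → ((V → ℝ) →ₗ[ℝ] ℝ) := fun v => ∑ u ∈ closedNbhd G v, LinearMap.proj u
  let b : (V → ℝ) →ₗ[ℝ] ℝ := ∑ u, LinearMap.proj u
  have ha : ∀ v x, a v x = ∑ u ∈ closedNbhd G v, x u := by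
    intro v x; simp [a, LinearMap.sum_apply]
  have hb : ∀ x, b x = ∑ u, x u := by
    intro x; simp [b, LinearMap.sum_apply]
  obtain ⟨y, hy, hby⟩ := farkas Finset.univ a b (by
    intro x hx
    by_contra hcon
    push Not at hcon
    rw [hb] at hcon
    -- move far along x from the constant function one
    obtain ⟨t, ht0, ht⟩ : ∃ t : ℝ, 0 ≤ t ∧ (∑ _v : V, (1 : ℝ)) - t * ∑ u, x u < c := by
      refine ⟨max 0 (((∑ _v : V, (1 : ℝ)) - c + 1) / ∑ u, x u), le_max_left _ _, ?_⟩
      have h1 : ((∑ _v : V, (1 : ℝ)) - c + 1) ≤
          max 0 (((∑ _v : V, (1 : ℝ)) - c + 1) / ∑ u, x u) * ∑ u, x u := by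
        calc ((∑ _v : V, (1 : ℝ)) - c + 1) =
            (((∑ _v : V, (1 : ℝ)) - c + 1) / ∑ u, x u) * ∑ u, x u := by
              rw [div_mul_cancel₀ _ hcon.ne']
          _ ≤ _ := mul_le_mul_of_nonneg_right (le_max_right _ _) hcon.le
      linarith
    have hdom : IsRealDominating G (fun v => 1 - t * x v) := by
      intro v
      rw [Finset.sum_sub_distrib, ← Finset.mul_sum]
      have h1 := hx v (Finset.mem_univ _)
      rw [ha] at h1
      have h2 : (1 : ℝ) ≤ ∑ _u ∈ closedNbhd G v, (1 : ℝ) := by
        rw [Finset.sum_const, nsmul_eq_mul, mul_one]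
        have : 1 ≤ (closedNbhd G v).card :=
          Finset.card_pos.2 ⟨v, (mem_cn G).2 (Or.inl rfl)⟩
        exact_mod_cast this
      have h3 : t * ∑ u ∈ closedNbhd G v, x u ≤ 0 :=
        mul_nonpos_of_nonneg_of_nonpos ht0 h1
      linarith
    have := hc _ hdom
    rw [Finset.sum_sub_distrib, ← Finset.mul_sum] at this
    linarith)
  refine ⟨y, fun v => hy v (Finset.mem_univ _), fun u => ?_⟩
  have h1 := congrArg (fun φ => φ (Pi.single u 1)) hby
  simp only [LinearMap.sum_apply, LinearMap.smul_apply, smul_eq_mul] at h1
  rw [hb] at h1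
  simp only [ha] at h1
  have h2 : ∑ w, (Pi.single u 1 : V → ℝ) w = 1 := by simp
  have h3 : ∀ v, ∑ w ∈ closedNbhd G v, (Pi.single u 1 : V → ℝ) w =
      if u ∈ closedNbhd G v then 1 else 0 := by
    intro v
    by_cases h : u ∈ closedNbhd G v
    · rw [if_pos h, Finset.sum_eq_single u]
      · simp
      · intro w _ hw; simp [hw]
      · intro h'; exact absurd h h'
    · rw [if_neg h]
      apply Finset.sum_eq_zero
      intro w hw
      have : w ≠ u := fun e => h (e ▸ hw)
      simp [this]
  rw [h2] at h1
  simp only [h3] at h1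
  rw [h1]
  have h4 : ∀ v, y v * (if u ∈ closedNbhd G v then (1 : ℝ) else 0) =
      if v ∈ closedNbhd G u then y v else 0 := by
    intro v
    by_cases h : u ∈ closedNbhd G v
    · rw [if_pos h, if_pos ((mem_cn_symm G).1 h), mul_one]
    · rw [if_neg h, if_neg (fun h' => h ((mem_cn_symm G).2 h')), mul_zero]
  simp only [h4]
  rw [Finset.sum_ite_mem]
  simp

/-- The main step: for a chordal graph with a NERD-function `f` there is a dominating set with at
most `w(f)` elements. -/
theorem dominating_of_nerd (hG : IsChordal G) (f : V → ℝ) (hf : IsNERD G f) :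
    ∃ S : Finset V, (∀ v, ∃ u ∈ S, u = v ∨ G.Adj v u) ∧ (S.card : ℝ) ≤ ∑ v, f v := by
  classical
  obtain ⟨r, hr, hpeo⟩ := exists_peo G hG
  -- the support and the closed neighbourhoods inside it
  set D : Finset V := Finset.univ.filter (fun v => 0 < f v) with hD
  have hDmem : ∀ v, v ∈ D ↔ 0 < f v := by intro v; simp [hD]
  have hf0 : ∀ v, v ∉ D → f v = 0 := by
    intro v hv
    rw [hDmem] at hv
    exact le_antisymm (not_lt.1 hv) (hf.1 v)
  let N : V → Finset V := fun v => closedNbhd G v ∩ D
  have hNmem : ∀ v u, u ∈ N v ↔ (u = v ∨ G.Adj v u) ∧ u ∈ D := by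
    intro v u
    simp only [N, Finset.mem_inter, mem_cn]
  have hNsum : ∀ v, ∑ u ∈ N v, f u = 1 := by
    intro v
    rw [← hf.2 v]
    apply Finset.sum_subset Finset.inter_subset_left
    intro u hu hu'
    apply hf0
    intro hD'
    exact hu' (Finset.mem_inter.2 ⟨hu, hD'⟩)
  have hself : ∀ v ∈ D, v ∈ N v := fun v hv => (hNmem v v).2 ⟨Or.inl rfl, hv⟩
  -- components of the support are cliques
  have hcomp : ∀ n : ℕ, ∀ a ∈ D, r a = n → ∀ b ∈ D, G.Adj a b → N a = N b := by
    intro n
    induction n using Nat.strong_induction_on with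
    | _ n ih =>
      intro a ha hra b hb hab
      by_cases hsm : ∃ c ∈ D, G.Adj a c ∧ r c < r a
      · obtain ⟨c, hc, hac, hrc⟩ := hsm
        have h1 : N c = N a := ih (r c) (by omega) c hc rfl a ha hac.symm
        have hbc : b ∈ N c := by
          rw [h1]; exact (hNmem a b).2 ⟨Or.inr hab, hb⟩
        rcases ((hNmem c b).1 hbc).1 with h | h
        · rw [h]; exact h1.symm
        · rw [← h1]; exact ih (r c) (by omega) c hc rfl b hb h
      · push Not at hsm
        have hlt : ∀ c ∈ D, G.Adj a c → r a < r c := by
          intro c hc hac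
          have h1 := hsm c hc hac
          have h2 : r a ≠ r c := fun h => hac.ne (hr h)
          omega
        have hsub : N a ⊆ N b := by
          intro z hz
          obtain ⟨hz1, hzD⟩ := (hNmem a z).1 hz
          rw [hNmem]
          refine ⟨?_, hzD⟩
          rcases hz1 with h | h
          · rw [h]; exact Or.inr hab.symm
          · by_cases hzb : z = b
            · exact Or.inl hzb
            · exact Or.inr (hpeo a b z hab h (hlt b hb hab) (hlt z hzD h) (fun h => hzb h.symm))
        -- equal mass forces equality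
        by_contra hne
        have hss : N a ⊂ N b := ⟨hsub, fun h => hne (Finset.Subset.antisymm hsub h)⟩
        obtain ⟨z, hz, hza⟩ := Finset.exists_of_ssubset hss
        have h3 : ∑ u ∈ N a, f u < ∑ u ∈ N b, f u := by
          apply Finset.sum_lt_sum_of_subset hsub hz hza
          · exact (hDmem z).1 ((hNmem b z).1 hz).2
          · intro j _ _; exact hf.1 j
        rw [hNsum, hNsum] at h3
        exact lt_irrefl _ h3
  have hcomp' : ∀ a ∈ D, ∀ b ∈ N a, N b = N a := by
    intro a ha b hb
    obtain ⟨h1, h2⟩ := (hNmem a b).1 hb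
    rcases h1 with h | h
    · rw [h]
    · exact (hcomp (r a) a ha rfl b h2 h).symm
  -- the last vertex of the component
  have htop : ∀ a : V, ∃ s, a ∈ D → s ∈ N a ∧ ∀ z ∈ N a, r z ≤ r s := by
    intro a
    by_cases ha : a ∈ D
    · obtain ⟨s, hs, hmax⟩ := Finset.exists_max_image (N a) r ⟨a, hself a ha⟩
      exact ⟨s, fun _ => ⟨hs, hmax⟩⟩
    · exact ⟨a, fun h => absurd h ha⟩
  choose top htop using htop
  have htopeq : ∀ a ∈ D, ∀ b ∈ N a, top b = top a := by
    intro a ha b hb
    have hbD : b ∈ D := ((hNmem a b).1 hb).2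
    have h1 := hcomp' a ha b hb
    have h2 := htop a ha
    have h3 := htop b hbD
    rw [h1] at h3
    apply hr
    exact le_antisymm (h2.2 _ h3.1) (h3.2 _ h2.1)
  refine ⟨D.image top, ?_, ?_⟩
  · intro v
    -- some support vertex near v
    have hex : ∃ a, a ∈ N v := by
      by_contra hcon
      push Not at hcon
      have h1 := hNsum v
      rw [Finset.eq_empty_of_forall_notMem hcon] at h1
      simp at h1
    by_cases hv : v ∈ D
    · refine ⟨top v, Finset.mem_image_of_mem _ hv, ?_⟩
      exact ((hNmem v _).1 (htop v hv).1).1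
    · by_contra hcon
      push Not at hcon
      have hfar : ∀ a ∈ D, top a ≠ v ∧ ¬ G.Adj v (top a) := fun a ha =>
        hcon _ (Finset.mem_image_of_mem _ ha)
      -- every support neighbour comes after v
      have hafter : ∀ a ∈ D, G.Adj v a → r v < r a := by
        intro a ha hva
        have hs := htop a ha
        have hs1 := hfar a ha
        have hsa : top a ≠ a := by
          intro h
          rw [h] at hs1
          exact hs1.2 hva
        have hadj : G.Adj a (top a) := by
          rcases ((hNmem a _).1 hs.1).1 with h | h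
          · exact absurd h hsa
          · exact h
        have hlt : r a < r (top a) := by
          have h1 := hs.2 a (hself a ha)
          have h2 : r a ≠ r (top a) := fun h => hsa (hr h).symm
          omega
        by_contra hle
        have h3 : r a ≠ r v := fun h => hva.ne (hr h).symm
        exact hs1.2 (hpeo a v (top a) hva.symm hadj (by omega) hlt (fun h => hs1.1 h.symm))
      obtain ⟨a, ha⟩ := hex
      obtain ⟨ha1, haD⟩ := (hNmem v a).1 ha
      have hva : G.Adj v a := by
        rcases ha1 with h | h
        · exact absurd (h ▸ haD) hv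
        · exact h
      -- the whole mass lies on the component of a
      have hsub : N v ⊆ N a := by
        intro b hb
        obtain ⟨hb1, hbD⟩ := (hNmem v b).1 hb
        have hvb : G.Adj v b := by
          rcases hb1 with h | h
          · exact absurd (h ▸ hbD) hv
          · exact h
        rw [hNmem]
        refine ⟨?_, hbD⟩
        by_cases hab : b = a
        · exact Or.inl hab
        · exact Or.inr (hpeo v a b hva hvb (hafter a haD hva) (hafter b hbD hvb)
            (fun h => hab h.symm))
      have hs := htop a haD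
      have hs1 := hfar a haD
      have hnot : top a ∉ N v := by
        intro h
        rcases ((hNmem v _).1 h).1 with h | h
        · exact hs1.1 h
        · exact hs1.2 h
      have h3 : ∑ u ∈ N v, f u < ∑ u ∈ N a, f u := by
        apply Finset.sum_lt_sum_of_subset hsub hs.1 hnot
        · exact (hDmem _).1 ((hNmem a _).1 hs.1).2
        · intro j _ _; exact hf.1 j
      rw [hNsum, hNsum] at h3
      exact lt_irrefl _ h3
  · -- counting
    have h1 : ∑ v, f v = ∑ v ∈ D, f v := by
      symm
      apply Finset.sum_subset (Finset.subset_univ _)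
      intro v _ hv
      exact hf0 v hv
    rw [h1]
    have h2 : ∑ s ∈ D.image top, ∑ v ∈ D.filter (fun v => top v = s), f v = ∑ v ∈ D, f v :=
      Finset.sum_fiberwise_of_maps_to (fun v hv => Finset.mem_image_of_mem _ hv) _
    rw [← h2]
    have h3 : ∀ s ∈ D.image top, (1 : ℝ) ≤ ∑ v ∈ D.filter (fun v => top v = s), f v := by
      intro s hs
      obtain ⟨a, ha, rfl⟩ := Finset.mem_image.1 hs
      rw [← hNsum a]
      apply Finset.sum_le_sum_of_subset_of_nonneg
      · intro b hb
        rw [Finset.mem_filter]
        exact ⟨((hNmem a b).1 hb).2, htopeq a ha b hb⟩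
      · intro j _ _; exact hf.1 j
    have h4 := Finset.card_nsmul_le_sum _ _ _ h3
    simpa using h4

end

/-- For a finite chordal graph, the real domination number equals the domination number if and
only if the graph has a NERD-function. -/
theorem result {V : Type} [Fintype V] (G : SimpleGraph V) (hG : IsChordal G) :
    realDominationNumber G = ((dominationNumber G : ℝ) : EReal) ↔ ∃ f : V → ℝ, IsNERD G f := by
  classical
  constructor
  · intro h
    apply nerd_of_bounded G (dominationNumber G : ℝ)
    intro f hf
    have h1 : realDominationNumber G ≤ ((∑ v, f v : ℝ) : EReal) := by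
      unfold realDominationNumber
      exact iInf₂_le f hf
    rw [h] at h1
    exact EReal.coe_le_coe_iff.1 h1
  · rintro ⟨f, hf⟩
    have hfR : IsRealDominating G f := fun v => (hf.2 v).ge
    have h1 : realDominationNumber G = ((∑ v, f v : ℝ) : EReal) := by
      unfold realDominationNumber
      apply le_antisymm
      · exact iInf₂_le f hfR
      · refine le_iInf₂ fun g hg => ?_
        exact EReal.coe_le_coe_iff.2 (weight_le G hf hg)
    rw [h1]
    congr 1
    apply le_antisymm
    · -- the indicator function of a minimum dominating set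
      have hne : {m | ∃ S : Finset V, (∀ v, ∃ u ∈ S, u = v ∨ G.Adj v u) ∧ S.card = m}.Nonempty :=
        ⟨_, Finset.univ, fun v => ⟨v, Finset.mem_univ _, Or.inl rfl⟩, rfl⟩
      obtain ⟨S, hS, hSc⟩ := Nat.sInf_mem hne
      have hg : IsRealDominating G (fun v => if v ∈ S then (1 : ℝ) else 0) := by
        intro v
        obtain ⟨u, hu, huv⟩ := hS v
        have h2 : (fun v => if v ∈ S then (1 : ℝ) else 0) u ≤
            ∑ u ∈ closedNbhd G v, (fun v => if v ∈ S then (1 : ℝ) else 0) u := by
          apply Finset.single_le_sum (f := fun v => if v ∈ S then (1 : ℝ) else 0)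
          · intro i _
            show (0 : ℝ) ≤ if i ∈ S then (1 : ℝ) else 0
            split_ifs <;> norm_num
          · exact (mem_cn G).2 huv
        simpa [hu] using h2
      have h3 := weight_le G hf hg
      have h4 : ∑ v, (if v ∈ S then (1 : ℝ) else 0) = (dominationNumber G : ℝ) := by
        rw [Finset.sum_ite_mem]
        simp [dominationNumber, hSc]
      rw [h4] at h3
      exact h3
    · obtain ⟨S, hS, hSc⟩ := dominating_of_nerd G hG f hf
      refine le_trans ?_ hSc
      have h5 : dominationNumber G ≤ S.card := Nat.sInf_le ⟨S, hS, rfl⟩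
      exact_mod_cast h5

end Pool.Agent.Results.MP_24e13c_co.ChordalRealDomination
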